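import Pool.Agent.Helper47.GK.TOT2

/-!
# Project GK, module TOT: the full Gaussian mean square
-/

set_option autoImplicit false

namespace Pool.Agent.Helper47.GK

open Finset ArithmeticFunction MeasureTheory
open Pool.Agent.Helper23.GK
open Pool.Agent.Helper2.MR (ch)
open Pool.Agent.Helper15.AB (IsW)

private lemma ev_pow (n : ℕ) (K : ℝ) : ∀ᶠ X : ℕ in Filter.atTop, K * Real.log X ^ n ≤ √(X : ℝ) := by
  have h := (isLittleO_log_rpow_rpow_atTop (n : ℝ) (by norm_num : (0 : ℝ) < 1 / 2)).bound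
    (show (0 : ℝ) < 1 / (|K| + 1) by positivity)
  have h2 := (tendsto_natCast_atTop_atTop (R := ℝ)).eventually h
  have h3 : ∀ᶠ X : ℕ in Filter.atTop, 1 ≤ X := Filter.eventually_ge_atTop 1
  filter_upwards [h2, h3] with X hX hX1
  have hlog : 0 ≤ Real.log X := Real.log_nonneg (by exact_mod_cast hX1)
  rw [Real.rpow_natCast, Real.norm_eq_abs, abs_of_nonneg (pow_nonneg hlog n), ← Real.sqrt_eq_rpow,
    Real.norm_eq_abs, abs_of_nonneg (Real.sqrt_nonneg _)] at hX
  have hK : 0 < |K| + 1 := by positivity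
  have h4 : (|K| + 1) * Real.log X ^ n ≤ √(X : ℝ) := by
    calc _ ≤ (|K| + 1) * (1 / (|K| + 1) * √(X : ℝ)) := mul_le_mul_of_nonneg_left hX hK.le
      _ = _ := by field_simp
  refine le_trans ?_ h4
  apply mul_le_mul_of_nonneg_right _ (pow_nonneg hlog n)
  linarith [le_abs_self K]

private lemma ev_log (K : ℝ) : ∀ᶠ X : ℕ in Filter.atTop, K ≤ Real.log X :=
  (Real.tendsto_log_atTop.comp (tendsto_natCast_atTop_atTop (R := ℝ))).eventually_ge_atTop K

/-- `∫_{|t| ≥ b} 1/t²` -/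
private lemma int_inv_sq {b : ℝ} (hb : 0 < b) {S : Set ℝ} (hS : MeasurableSet S)
    (h : ∀ t ∈ S, b ≤ |t|) : IntegrableOn (fun t : ℝ => 1 / t ^ 2) S ∧
    ∫ t in S, 1 / t ^ 2 ≤ 2 * Real.pi / b := by
  have hg : Integrable (fun t : ℝ => 2 / b ^ 2 * (1 + (t / b) ^ 2)⁻¹) := by
    exact ((integrable_inv_one_add_sq).comp_div hb.ne').const_mul _
  have hle : ∀ t ∈ S, 1 / t ^ 2 ≤ 2 / b ^ 2 * (1 + (t / b) ^ 2)⁻¹ := by
    intro t ht
    have h1 := h t ht
    have h2 : b ^ 2 ≤ t ^ 2 := by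
      rw [← sq_abs t]
      exact pow_le_pow_left₀ hb.le h1 2
    have h3 : 0 < t ^ 2 := lt_of_lt_of_le (by positivity) h2
    have h4 : 2 / b ^ 2 * (1 + (t / b) ^ 2)⁻¹ = 2 / (b ^ 2 + t ^ 2) := by
      field_simp
    rw [h4, div_le_div_iff₀ h3 (by positivity)]
    linarith
  have hI : IntegrableOn (fun t : ℝ => 1 / t ^ 2) S := by
    refine Integrable.mono' (hg.integrableOn (s := S)) ?_ ?_
    · exact (by fun_prop : Measurable fun t : ℝ => 1 / t ^ 2).aestronglyMeasurable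
    · rw [ae_restrict_iff' hS]
      refine Filter.Eventually.of_forall fun t ht => ?_
      rw [Real.norm_eq_abs, abs_of_nonneg (by positivity)]
      exact hle t ht
  refine ⟨hI, ?_⟩
  calc ∫ t in S, 1 / t ^ 2 ≤ ∫ t in S, 2 / b ^ 2 * (1 + (t / b) ^ 2)⁻¹ :=
        setIntegral_mono_on hI hg.integrableOn hS hle
    _ ≤ ∫ t, 2 / b ^ 2 * (1 + (t / b) ^ 2)⁻¹ := by
        apply setIntegral_le_integral hg
        exact Filter.Eventually.of_forall fun t => by positivity
    _ = 2 * Real.pi / b := by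
        rw [integral_const_mul, Measure.integral_comp_div (fun t : ℝ => (1 + t ^ 2)⁻¹) b,
          integral_univ_inv_one_add_sq, smul_eq_mul, abs_of_pos hb]
        field_simp

private lemma meas_S2 (a b : ℝ) : MeasurableSet {t : ℝ | a ≤ |t| ∧ |t| ≤ b} :=
  (measurableSet_le measurable_const measurable_id.abs).inter
    (measurableSet_le measurable_id.abs measurable_const)

private lemma S2_sub (a b : ℝ) : {t : ℝ | a ≤ |t| ∧ |t| ≤ b} ⊆ Set.Icc (-b) b :=
  fun _ ht => abs_le.1 ht.2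

private lemma intOn_S2 {f : ℝ → ℝ} (hf : Continuous f) (a b : ℝ) :
    IntegrableOn f {t : ℝ | a ≤ |t| ∧ |t| ≤ b} :=
  (hf.continuousOn.integrableOn_compact isCompact_Icc).mono_set (S2_sub a b)

/-- a constant bound on `{a ≤ |t| ≤ b}` -/
private lemma const_S2 {f : ℝ → ℝ} {a b c : ℝ} (hb : 0 ≤ b) (hc : 0 ≤ c) (hf0 : ∀ t, 0 ≤ f t)
    (h : ∀ t : ℝ, a ≤ |t| → |t| ≤ b → f t ≤ c) :
    ∫ t in {t : ℝ | a ≤ |t| ∧ |t| ≤ b}, f t ≤ 2 * b * c := by
  have hfin : volume {t : ℝ | a ≤ |t| ∧ |t| ≤ b} < ⊤ :=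
    (measure_mono (S2_sub a b)).trans_lt (by rw [Real.volume_Icc]; exact ENNReal.ofReal_lt_top)
  have h1 := norm_setIntegral_le_of_norm_le_const (f := f) (C := c) hfin (fun t ht => by
    rw [Real.norm_eq_abs, abs_of_nonneg (hf0 t)]
    exact h t ht.1 ht.2)
  refine (le_abs_self _).trans ((Real.norm_eq_abs _).symm.le.trans (h1.trans ?_))
  have h2 : volume.real {t : ℝ | a ≤ |t| ∧ |t| ≤ b} ≤ 2 * b := by
    calc _ ≤ volume.real (Set.Icc (-b) b) :=
          measureReal_mono (S2_sub a b) (by rw [Real.volume_Icc]; exact ENNReal.ofReal_ne_top)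
      _ = 2 * b := by
          rw [Real.volume_real_Icc_of_le (by linarith)]
          ring
  calc c * volume.real {t : ℝ | a ≤ |t| ∧ |t| ≤ b} ≤ c * (2 * b) := mul_le_mul_of_nonneg_left h2 hc
    _ = _ := by ring

/-- the splitting of a Gaussian integral -/
private lemma gauss_split {g : ℝ → ℝ} (hg : Continuous g) (hg0 : ∀ t, 0 ≤ g t) {G T b l : ℝ}
    (hG : ∀ t, g t ≤ G) (hT : 0 < T) (hb : 0 ≤ b) (hl : 1 ≤ l) {c1 c2 : ℝ}
    (h1 : ∀ t, |t| ≤ b → g t ≤ c1)
    (h2 : ∫ t in {t : ℝ | b ≤ |t| ∧ |t| ≤ T * l}, g t ≤ c2) :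
    ∫ t : ℝ, Real.exp (-(t / T) ^ 2) * g t ≤ 2 * b * c1 + c2 +
      G * Real.exp (-(l ^ 2 / 2)) * (3 * T) := by
  have hG0 : 0 ≤ G := (hg0 0).trans (hG 0)
  have hc1 : 0 ≤ c1 := (hg0 0).trans (h1 0 (by rw [abs_zero]; exact hb))
  set f : ℝ → ℝ := fun t => Real.exp (-(t / T) ^ 2) * g t with hf
  have hf0 : ∀ t, 0 ≤ f t := fun t => mul_nonneg (Real.exp_pos _).le (hg0 t)
  have hfc : Continuous f := by
    rw [hf]
    exact (by fun_prop : Continuous fun t : ℝ => Real.exp (-(t / T) ^ 2)).mul hg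
  have hfg : ∀ t, f t ≤ g t := by
    intro t
    have : Real.exp (-(t / T) ^ 2) ≤ 1 := by
      rw [Real.exp_le_one_iff]
      have : (0 : ℝ) ≤ (t / T) ^ 2 := by positivity
      linarith
    calc f t ≤ 1 * g t := mul_le_mul_of_nonneg_right this (hg0 t)
      _ = g t := one_mul _
  -- the Gaussian
  have hgauss : Integrable (fun t : ℝ => Real.exp (-(1 / (2 * T ^ 2)) * t ^ 2)) :=
    integrable_exp_neg_mul_sq (by positivity)
  have hgi : ∫ t : ℝ, Real.exp (-(1 / (2 * T ^ 2)) * t ^ 2) ≤ 3 * T := by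
    rw [integral_gaussian]
    have : Real.pi / (1 / (2 * T ^ 2)) ≤ (3 * T) ^ 2 := by
      have : Real.pi / (1 / (2 * T ^ 2)) = Real.pi * 2 * T ^ 2 := by field_simp
      rw [this]
      have := Real.pi_lt_d2
      nlinarith [sq_nonneg T]
    exact Real.sqrt_le_iff.2 ⟨by positivity, this⟩
  set e : ℝ := Real.exp (-(l ^ 2 / 2)) with he
  have he0 : 0 < e := Real.exp_pos _
  set S1 : Set ℝ := {t : ℝ | 0 ≤ |t| ∧ |t| ≤ b} with hS1
  set S2 : Set ℝ := {t : ℝ | b ≤ |t| ∧ |t| ≤ T * l} with hS2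
  have m1 : MeasurableSet S1 := meas_S2 0 b
  have m2 : MeasurableSet S2 := meas_S2 b (T * l)
  have i1 : IntegrableOn f S1 := intOn_S2 hfc 0 b
  have i2 : IntegrableOn f S2 := intOn_S2 hfc b (T * l)
  have i2g : IntegrableOn g S2 := intOn_S2 hg b (T * l)
  have hpt : ∀ t, f t ≤ S1.indicator f t + S2.indicator f t +
      G * e * Real.exp (-(1 / (2 * T ^ 2)) * t ^ 2) := by
    intro t
    have n1 : 0 ≤ S1.indicator f t := Set.indicator_nonneg (fun s _ => hf0 s) t
    have n2 : 0 ≤ S2.indicator f t := Set.indicator_nonneg (fun s _ => hf0 s) t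
    have n3 : 0 ≤ G * e * Real.exp (-(1 / (2 * T ^ 2)) * t ^ 2) := by positivity
    by_cases ht1 : |t| ≤ b
    · have : S1.indicator f t = f t := Set.indicator_of_mem (show t ∈ S1 from ⟨abs_nonneg t, ht1⟩) f
      rw [this]
      linarith
    · push Not at ht1
      by_cases ht2 : |t| ≤ T * l
      · have : S2.indicator f t = f t := Set.indicator_of_mem (show t ∈ S2 from ⟨ht1.le, ht2⟩) f
        rw [this]
        linarith
      · push Not at ht2
        have h3 : f t ≤ G * e * Real.exp (-(1 / (2 * T ^ 2)) * t ^ 2) := by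
          have h4 : l ^ 2 ≤ (t / T) ^ 2 := by
            rw [← sq_abs (t / T), abs_div, abs_of_pos hT]
            apply pow_le_pow_left₀ (by linarith)
            rw [le_div_iff₀ hT]
            linarith
          have h5 : Real.exp (-(t / T) ^ 2) ≤ e * Real.exp (-(1 / (2 * T ^ 2)) * t ^ 2) := by
            rw [he, ← Real.exp_add, Real.exp_le_exp]
            have h6 : (t / T) ^ 2 = 2 * (1 / (2 * T ^ 2) * t ^ 2) := by field_simp
            have h7 : -(1 / (2 * T ^ 2)) * t ^ 2 = -(t / T) ^ 2 / 2 := by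
              rw [h6]
              ring
            rw [h7]
            linarith
          calc f t ≤ (e * Real.exp (-(1 / (2 * T ^ 2)) * t ^ 2)) * G :=
                mul_le_mul h5 (hG t) (hg0 t) (by positivity)
            _ = _ := by ring
        linarith
  have hint : Integrable (fun t => S1.indicator f t + S2.indicator f t +
      G * e * Real.exp (-(1 / (2 * T ^ 2)) * t ^ 2)) :=
    (((integrable_indicator_iff m1).2 i1).add ((integrable_indicator_iff m2).2 i2)).add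
      (hgauss.const_mul _)
  have hfi : Integrable f := by
    refine Integrable.mono' hint hfc.aestronglyMeasurable (Filter.Eventually.of_forall fun t => ?_)
    rw [Real.norm_eq_abs, abs_of_nonneg (hf0 t)]
    exact hpt t
  calc ∫ t, f t ≤ ∫ t, (S1.indicator f t + S2.indicator f t +
      G * e * Real.exp (-(1 / (2 * T ^ 2)) * t ^ 2)) := integral_mono hfi hint hpt
    _ = (∫ t in S1, f t) + (∫ t in S2, f t) +
        G * e * ∫ t : ℝ, Real.exp (-(1 / (2 * T ^ 2)) * t ^ 2) := by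
        have j12 : Integrable (fun t => S1.indicator f t + S2.indicator f t) :=
          ((integrable_indicator_iff m1).2 i1).add ((integrable_indicator_iff m2).2 i2)
        rw [integral_add j12 (hgauss.const_mul _),
          integral_add ((integrable_indicator_iff m1).2 i1) ((integrable_indicator_iff m2).2 i2),
          integral_indicator m1, integral_indicator m2, integral_const_mul]
    _ ≤ 2 * b * c1 + c2 + G * e * (3 * T) := by
        refine add_le_add (add_le_add ?_ ?_) (mul_le_mul_of_nonneg_left hgi (by positivity))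
        · exact const_S2 hb hc1 hf0 fun t _ ht => (hfg t).trans (h1 t ht)
        · exact (setIntegral_mono i2 i2g hfg).trans h2

/-- the middle range for coprime classes -/
private lemma mid_cop {w : ℝ → ℝ} {C : ℝ} (hC1 : 1 ≤ C)
    (hsm : ∀ (X : ℕ) (t : ℝ), 2 ≤ X → 1 ≤ |t| →
      ‖∑ m ∈ Icc 1 (3 * X), ((w (Real.log (m / X)) : ℝ) : ℂ) * ch t m / m‖ ≤
        C * (1 / |t| + |t| / X)) {X q u : ℕ} (hX : 2 ≤ X) [NeZero q] (hc : Nat.Coprime u q)
    {b R c : ℝ} (hb : 1 ≤ b) (hR : 0 ≤ R)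
    (hGA : ∀ χ : DirichletCharacter ℂ q,
      ∫ t in {t : ℝ | b ≤ |t| ∧ |t| ≤ R}, ‖GA w χ X t‖ ^ 2 ≤ c) :
    ∫ t in {t : ℝ | b ≤ |t| ∧ |t| ≤ R}, ‖GB w X q u t‖ ^ 2 ≤
      2 * c + 4 * C ^ 2 * (2 * Real.pi / b) + 4 * C ^ 2 * (R ^ 2 / X ^ 2) * (2 * R) := by
  classical
  have hX0 : (0 : ℝ) < X := by positivity
  have hq : 0 < q := Nat.pos_of_ne_zero (NeZero.ne q)
  have hφ : (0 : ℝ) < Nat.totient q := by exact_mod_cast Nat.totient_pos.2 hq
  set S : Set ℝ := {t : ℝ | b ≤ |t| ∧ |t| ≤ R} with hS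
  have mS : MeasurableSet S := meas_S2 b R
  have iA : ∀ χ : DirichletCharacter ℂ q, IntegrableOn (fun t => ‖GA w χ X t‖ ^ 2) S := fun χ =>
    intOn_S2 ((cont_GA_TOT w χ X).norm.pow 2) b R
  have iB : IntegrableOn (fun t => ‖GB w X q u t‖ ^ 2) S :=
    intOn_S2 ((cont_GB_TOT w X q u).norm.pow 2) b R
  obtain ⟨iI, bI⟩ := int_inv_sq (by linarith : 0 < b) mS (fun t ht => ht.1)
  have iK : IntegrableOn (fun _ : ℝ => R ^ 2 / (X : ℝ) ^ 2) S := intOn_S2 continuous_const b R
  have iS : IntegrableOn (fun t => ∑ χ : DirichletCharacter ℂ q, ‖GA w χ X t‖ ^ 2) S :=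
    intOn_S2 (continuous_finsetSum _ fun χ _ => (cont_GA_TOT w χ X).norm.pow 2) b R
  have hcard : (univ : Finset (DirichletCharacter ℂ q)).card = Nat.totient q := by
    rw [← Nat.card_eq_fintype_card.symm.trans
      (DirichletCharacter.card_eq_totient_of_hasEnoughRootsOfUnity ℂ q)]
    simp
  have hpt : ∀ t ∈ S, ‖GB w X q u t‖ ^ 2 ≤ (2 / (Nat.totient q : ℝ)) *
      (∑ χ : DirichletCharacter ℂ q, ‖GA w χ X t‖ ^ 2) + (4 * C ^ 2 * (1 / t ^ 2) +
        4 * C ^ 2 * (R ^ 2 / (X : ℝ) ^ 2)) := by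
    intro t ht
    have h1 := GB_cop_TOT (w := w) (X := X) hc t
    have h2 := hsm X t hX (hb.trans ht.1)
    have h3 : ‖∑ m ∈ Icc 1 (3 * X), ((w (Real.log (m / X)) : ℝ) : ℂ) * ch t m / m‖ ^ 2 ≤
        C ^ 2 * (2 * (1 / t ^ 2) + 2 * (R ^ 2 / (X : ℝ) ^ 2)) := by
      have e1 : |t| ^ 2 = t ^ 2 := sq_abs t
      have e2 : |t| ^ 2 ≤ R ^ 2 := pow_le_pow_left₀ (abs_nonneg t) ht.2 2
      calc _ ≤ (C * (1 / |t| + |t| / X)) ^ 2 := pow_le_pow_left₀ (norm_nonneg _) h2 2
        _ = C ^ 2 * (1 / |t| + |t| / X) ^ 2 := by ring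
        _ ≤ C ^ 2 * (2 * (1 / |t|) ^ 2 + 2 * (|t| / X) ^ 2) := by
            apply mul_le_mul_of_nonneg_left _ (by positivity)
            nlinarith [sq_nonneg (1 / |t| - |t| / X)]
        _ = C ^ 2 * (2 * (1 / t ^ 2) + 2 * (|t| ^ 2 / (X : ℝ) ^ 2)) := by
            rw [div_pow, div_pow, e1, one_pow]
        _ ≤ _ := by
            apply mul_le_mul_of_nonneg_left _ (by positivity)
            have := div_le_div_of_nonneg_right e2 (by positivity : (0 : ℝ) ≤ (X : ℝ) ^ 2)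
            linarith
    calc _ ≤ _ := h1
      _ ≤ 2 * (1 / (Nat.totient q : ℝ) * ∑ χ : DirichletCharacter ℂ q, ‖GA w χ X t‖ ^ 2) +
          2 * (C ^ 2 * (2 * (1 / t ^ 2) + 2 * (R ^ 2 / (X : ℝ) ^ 2))) := by linarith
      _ = _ := by ring
  have iR : IntegrableOn (fun t => (2 / (Nat.totient q : ℝ)) *
      (∑ χ : DirichletCharacter ℂ q, ‖GA w χ X t‖ ^ 2) + (4 * C ^ 2 * (1 / t ^ 2) +
        4 * C ^ 2 * (R ^ 2 / (X : ℝ) ^ 2))) S :=
    (iS.const_mul _).add ((iI.const_mul _).add (iK.const_mul _))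
  have j2 : IntegrableOn (fun t : ℝ => 4 * C ^ 2 * (1 / t ^ 2) +
        4 * C ^ 2 * (R ^ 2 / (X : ℝ) ^ 2)) S := (iI.const_mul _).add (iK.const_mul _)
  calc ∫ t in S, ‖GB w X q u t‖ ^ 2 ≤ ∫ t in S, ((2 / (Nat.totient q : ℝ)) *
      (∑ χ : DirichletCharacter ℂ q, ‖GA w χ X t‖ ^ 2) + (4 * C ^ 2 * (1 / t ^ 2) +
        4 * C ^ 2 * (R ^ 2 / (X : ℝ) ^ 2))) := setIntegral_mono_on iB iR mS hpt
    _ = (2 / (Nat.totient q : ℝ)) * (∑ χ : DirichletCharacter ℂ q, ∫ t in S, ‖GA w χ X t‖ ^ 2) +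
        (4 * C ^ 2 * (∫ t in S, 1 / t ^ 2) + 4 * C ^ 2 * ∫ _ in S, R ^ 2 / (X : ℝ) ^ 2) := by
        rw [integral_add (iS.const_mul _) j2, integral_add (iI.const_mul _) (iK.const_mul _),
          integral_const_mul, integral_const_mul, integral_const_mul,
          integral_finsetSum _ (fun χ _ => iA χ)]
    _ ≤ (2 / (Nat.totient q : ℝ)) * ((Nat.totient q : ℝ) * c) +
        (4 * C ^ 2 * (2 * Real.pi / b) + 4 * C ^ 2 * (2 * R * (R ^ 2 / (X : ℝ) ^ 2))) := by
        refine add_le_add (mul_le_mul_of_nonneg_left ?_ (by positivity))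
          (add_le_add (mul_le_mul_of_nonneg_left bI (by positivity))
            (mul_le_mul_of_nonneg_left ?_ (by positivity)))
        · calc _ ≤ ∑ χ : DirichletCharacter ℂ q, c := Finset.sum_le_sum fun χ _ => hGA χ
            _ = _ := by rw [Finset.sum_const, hcard, nsmul_eq_mul]
        · exact const_S2 hR (by positivity) (fun _ => by positivity) fun _ _ _ => le_rfl
    _ = _ := by
        field_simp
        ring

theorem hTOT (h1 : StHif) (h2 : StLow) : StTot := by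
  intro w hw A B D
  obtain ⟨B1, X1, hif⟩ := h1 w hw (A + 3) B (D + 1)
  set B2 : ℕ := max B1 (A + 5) with hB2
  obtain ⟨X2, low⟩ := h2 w hw (A + 2 * B2 + 3) B
  obtain ⟨C, hC1, hsm⟩ := smooth_TOT hw
  have ev : ∀ᶠ X : ℕ in Filter.atTop, X1 ≤ X ∧ X2 ≤ X ∧ 3 ≤ X ∧ 16 ≤ Real.log X ∧
      256 * C ^ 2 ≤ Real.log X ∧ 64 * Real.log X ^ (A + (2 * B + D + 3)) ≤ √(X : ℝ) ∧
      64 * C ^ 2 * Real.log X ^ (A + (3 * D + 3)) ≤ √(X : ℝ) ∧
      972 * Real.log X ^ (A + (D + 2)) ≤ √(X : ℝ) := by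
    filter_upwards [Filter.eventually_ge_atTop X1, Filter.eventually_ge_atTop X2,
      Filter.eventually_ge_atTop 3, ev_log 16, ev_log (256 * C ^ 2), ev_pow (A + (2 * B + D + 3)) 64,
      ev_pow (A + (3 * D + 3)) (64 * C ^ 2), ev_pow (A + (D + 2)) 972] with X a1 a2 a3 a4 a5 a6 a7 a8
    exact ⟨a1, a2, a3, a4, a5, a6, a7, a8⟩
  obtain ⟨X0, hX0⟩ := Filter.eventually_atTop.1 ev
  refine ⟨X0, fun X hX q u hq hqB => ?_⟩
  obtain ⟨a1, a2, a3, a4, a5, a6, a7, a8⟩ := hX0 X hX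
  haveI : NeZero q := ⟨by omega⟩
  have hXp : (0 : ℝ) < X := by positivity
  have hX3 : (3 : ℝ) ≤ X := by exact_mod_cast a3
  set L : ℝ := Real.log X with hL
  have hL1 : 1 ≤ L := by linarith
  have hL0 : 0 < L := by linarith
  set r : ℝ := √(X : ℝ) with hr
  have hr0 : 0 < r := Real.sqrt_pos.2 hXp
  have hrr : r ^ 2 = X := Real.sq_sqrt hXp.le
  have hr1 : 1 ≤ r := by
    by_contra hlt
    push Not at hlt
    nlinarith
  set P : ℝ := L ^ A with hP
  have hP1 : 1 ≤ P := one_le_pow₀ hL1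
  have hP0 : 0 < P := by linarith
  set b : ℝ := L ^ B2 with hb
  have hb1 : 1 ≤ b := one_le_pow₀ hL1
  have hlog3 : Real.log (3 * X) ≤ 2 * L := by
    rw [Real.log_mul (by norm_num) hXp.ne']
    have : Real.log 3 ≤ L := Real.log_le_log (by norm_num) hX3
    linarith
  have hlog30 : 0 ≤ Real.log (3 * X) := Real.log_nonneg (by linarith)
  set T : ℝ := r * L ^ D with hT
  have hT0 : 0 < T := by positivity
  have hTl : T * L = r * L ^ (D + 1) := by rw [hT, pow_succ]; ring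
  -- bounds for `g`
  have hG : ∀ t, ‖GB w X q u t‖ ^ 2 ≤ (3 * (3 * L)) ^ 2 := by
    intro t
    apply pow_le_pow_left₀ (norm_nonneg _)
    have := GB_bound_TOT hw (by omega : 1 ≤ X) hq (u := u) t
    linarith
  have hc1 : ∀ t, |t| ≤ b → ‖GB w X q u t‖ ^ 2 ≤ ((1 + b) / L ^ (A + 2 * B2 + 3)) ^ 2 := by
    intro t ht
    apply pow_le_pow_left₀ (norm_nonneg _)
    refine (low X a2 q u t hq hqB).trans ?_
    apply div_le_div_of_nonneg_right _ (by positivity)
    linarith
  have hmid : ∫ t in {t : ℝ | b ≤ |t| ∧ |t| ≤ T * L}, ‖GB w X q u t‖ ^ 2 ≤ 1 / (2 * P) := by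
    by_cases hcop : Nat.Coprime u q
    · have hGA : ∀ χ : DirichletCharacter ℂ q,
          ∫ t in {t : ℝ | b ≤ |t| ∧ |t| ≤ T * L}, ‖GA w χ X t‖ ^ 2 ≤ 1 / L ^ (A + 3) := by
        intro χ
        refine le_trans ?_ (hif X a1 q χ hqB)
        refine setIntegral_mono_set (intOn_S2 ((cont_GA_TOT w χ X).norm.pow 2) _ _)
          (Filter.Eventually.of_forall fun t => by positivity) ?_
        refine Filter.Eventually.of_forall fun t ht => ?_
        refine ⟨le_trans (pow_le_pow_right₀ hL1 (le_max_left _ _)) ht.1, ?_⟩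
        rw [← hL, ← hr, ← hTl]
        exact ht.2
      refine (mid_cop hC1 hsm (by omega) hcop hb1 (by positivity) hGA).trans ?_
      have e1 : 2 * (1 / L ^ (A + 3)) ≤ 1 / (8 * P) := by
        rw [pow_add, ← hP, mul_one_div, div_le_div_iff₀ (by positivity) (by positivity)]
        have : (16 : ℝ) ≤ L ^ 3 := by nlinarith [pow_le_pow_left₀ (by norm_num) a4 3]
        nlinarith
      have e2 : 4 * C ^ 2 * (2 * Real.pi / b) ≤ 1 / (8 * P) := by
        have h3 : P * L ^ 5 ≤ b := by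
          rw [hP, hb, ← pow_add]
          exact pow_le_pow_right₀ hL1 (le_max_right _ _)
        have h4 : L ≤ L ^ 5 := le_self_pow₀ hL1 (by norm_num)
        have hpi : Real.pi < 4 := by linarith [Real.pi_lt_d2]
        have hC0 : 0 < C ^ 2 := by positivity
        rw [show 4 * C ^ 2 * (2 * Real.pi / b) = 8 * C ^ 2 * Real.pi / b by ring,
          div_le_div_iff₀ (by linarith) (by positivity)]
        calc 8 * C ^ 2 * Real.pi * (8 * P) ≤ 8 * C ^ 2 * 4 * (8 * P) := by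
              apply mul_le_mul_of_nonneg_right _ (by positivity)
              apply mul_le_mul_of_nonneg_left hpi.le (by positivity)
          _ = P * (256 * C ^ 2) := by ring
          _ ≤ P * L ^ 5 := mul_le_mul_of_nonneg_left (a5.trans h4) hP0.le
          _ ≤ 1 * b := by rw [one_mul]; exact h3
      have e3 : 4 * C ^ 2 * ((T * L) ^ 2 / X ^ 2) * (2 * (T * L)) ≤ 1 / (8 * P) := by
        rw [hTl, ← hrr]
        have : 4 * C ^ 2 * ((r * L ^ (D + 1)) ^ 2 / (r ^ 2) ^ 2) * (2 * (r * L ^ (D + 1))) =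
            8 * C ^ 2 * L ^ (3 * D + 3) / r := by
          field_simp
          ring
        rw [this, div_le_div_iff₀ hr0 (by positivity), one_mul]
        refine le_trans (le_of_eq ?_) a7
        rw [pow_add L A]
        ring
      have e4 : 1 / (8 * P) + 1 / (8 * P) + 1 / (8 * P) ≤ 1 / (2 * P) := by
        rw [show 1 / (8 * P) + 1 / (8 * P) + 1 / (8 * P) = 3 / (8 * P) by ring,
          div_le_div_iff₀ (by positivity) (by positivity)]
        nlinarith
      linarith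
    · have hb2 : ∀ t : ℝ, b ≤ |t| → |t| ≤ T * L →
          ‖GB w X q u t‖ ^ 2 ≤ (4 * L ^ (B + 1) / X) ^ 2 := by
        intro t _ _
        apply pow_le_pow_left₀ (norm_nonneg _)
        refine (GB_ncop_TOT hw (by omega) hq hcop t).trans ?_
        apply div_le_div_of_nonneg_right _ hXp.le
        have f1 : (Nat.log 2 (3 * X) : ℝ) ≤ 4 * L := by
          have g1 : ((2 : ℝ) ^ Nat.log 2 (3 * X)) ≤ 3 * X := by
            exact_mod_cast Nat.pow_log_le_self 2 (by omega : 3 * X ≠ 0)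
          have g2 := Real.log_le_log (by positivity) g1
          rw [Real.log_pow] at g2
          have g3 : (1 / 2 : ℝ) ≤ Real.log 2 := by linarith [Real.log_two_gt_d9]
          have g4 : (0 : ℝ) ≤ (Nat.log 2 (3 * X) : ℝ) := Nat.cast_nonneg _
          nlinarith
        have f2 : Real.log q ≤ L ^ B :=
          ((Real.log_le_sub_one_of_pos (by positivity)).trans (by linarith)).trans hqB
        have f3 : 0 ≤ Real.log q := Real.log_natCast_nonneg q
        calc _ ≤ 4 * L * L ^ B := mul_le_mul f1 f2 f3 (by positivity)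
          _ = _ := by ring
      refine (const_S2 (by positivity) (by positivity) (fun _ => by positivity) hb2).trans ?_
      rw [hTl, ← hrr]
      have : 2 * (r * L ^ (D + 1)) * (4 * L ^ (B + 1) / r ^ 2) ^ 2 =
          32 * L ^ (2 * B + D + 3) / r ^ 3 := by
        field_simp
        ring
      rw [this, div_le_div_iff₀ (by positivity) (by positivity), one_mul]
      calc 32 * L ^ (2 * B + D + 3) * (2 * P) = 64 * L ^ (A + (2 * B + D + 3)) := by
            rw [pow_add L A]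
            ring
        _ ≤ r := a6
        _ ≤ r ^ 3 := le_self_pow₀ hr1 (by norm_num)
  have main := gauss_split (g := fun t => ‖GB w X q u t‖ ^ 2)
    ((cont_GB_TOT w X q u).norm.pow 2) (fun t => by positivity) hG hT0 (by linarith : 0 ≤ b) hL1
    hc1 hmid
  refine main.trans ?_
  have e1 : 2 * b * ((1 + b) / L ^ (A + 2 * B2 + 3)) ^ 2 ≤ 1 / (4 * P) := by
    have h3 : L ^ (A + 2 * B2 + 3) = P * b ^ 2 * L ^ 3 := by
      rw [hP, hb]
      ring
    rw [h3, div_pow, mul_div_assoc', div_le_div_iff₀ (by positivity) (by positivity), one_mul]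
    have h4 : (1 + b) ^ 2 ≤ 4 * b ^ 2 := by nlinarith
    have h5 : (32 : ℝ) ≤ L ^ 6 := by
      calc (32 : ℝ) ≤ 16 ^ 6 := by norm_num
        _ ≤ L ^ 6 := pow_le_pow_left₀ (by norm_num) a4 6
    calc 2 * b * (1 + b) ^ 2 * (4 * P) ≤ 2 * b * (4 * b ^ 2) * (4 * P) := by
          apply mul_le_mul_of_nonneg_right _ (by positivity)
          exact mul_le_mul_of_nonneg_left h4 (by positivity)
      _ = b ^ 3 * 1 * (P * 1) * 32 := by ring
      _ ≤ b ^ 3 * b * (P * P) * L ^ 6 := by gcongr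
      _ = _ := by ring
  have e3 : (3 * (3 * L)) ^ 2 * Real.exp (-(L ^ 2 / 2)) * (3 * T) ≤ 1 / (4 * P) := by
    have h3 : Real.exp (-(L ^ 2 / 2)) ≤ 1 / X := by
      calc _ ≤ Real.exp (-L) := by
            rw [Real.exp_le_exp]
            nlinarith
        _ = 1 / X := by rw [Real.exp_neg, hL, Real.exp_log hXp, one_div]
    calc _ ≤ (3 * (3 * L)) ^ 2 * (1 / X) * (3 * T) := by
          apply mul_le_mul_of_nonneg_right _ (by positivity)
          exact mul_le_mul_of_nonneg_left h3 (by positivity)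
      _ = 243 * L ^ (D + 2) / r := by
          rw [hT, ← hrr]
          field_simp
          ring
      _ ≤ _ := by
          rw [div_le_div_iff₀ hr0 (by positivity), one_mul]
          refine le_trans (le_of_eq ?_) a8
          rw [pow_add L A]
          ring
  have e4 : 1 / (4 * P) + 1 / (2 * P) + 1 / (4 * P) = 1 / P := by
    field_simp
    norm_num
  linarith

end Pool.Agent.Helper47.GK
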