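import Pool.Agent.Helper47.GK.TOT1

/-!
# Project GK, module TOT, part 2: bounds for `GB`
-/

set_option autoImplicit false

namespace Pool.Agent.Helper47.GK

open Finset ArithmeticFunction MeasureTheory
open Pool.Agent.Helper23.GK
open Pool.Agent.Helper2.MR (ch)
open Pool.Agent.Helper15.AB (IsW)

lemma norm_ch_TOT (t : ℝ) (n : ℕ) : ‖ch t n‖ = 1 := by
  unfold ch
  rw [Complex.norm_exp_ofReal_mul_I]

lemma cont_ch_TOT (n : ℕ) : Continuous fun t : ℝ => ch t n := by
  unfold ch
  fun_prop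

lemma cont_GB_TOT (w : ℝ → ℝ) (X q u : ℕ) : Continuous (GB w X q u) := by
  unfold GB
  exact continuous_finsetSum _ fun m _ => continuous_const.mul (cont_ch_TOT m)

lemma cont_GA_TOT {q : ℕ} (w : ℝ → ℝ) (χ : DirichletCharacter ℂ q) (X : ℕ) :
    Continuous (GA w χ X) := by
  unfold GA
  exact continuous_finsetSum _ fun m _ =>
    (continuous_const.mul (cont_ch_TOT m)).div_const _

private lemma w_out {w : ℝ → ℝ} (hw : IsW w) {X m : ℕ} (hX : 1 ≤ X) (hm : 1 ≤ m) (h : m < X) :
    w (Real.log (m / X)) = 0 := by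
  apply hw.supp
  have hX0 : (0 : ℝ) < X := by positivity
  have hm0 : (0 : ℝ) < m := by positivity
  have : Real.log ((m : ℝ) / X) < 0 :=
    Real.log_neg (by positivity) (by rw [div_lt_one hX0]; exact_mod_cast h)
  intro hh
  exact absurd hh.1 (not_le.2 this)

/-- the trivial bound -/
lemma GB_bound_TOT {w : ℝ → ℝ} (hw : IsW w) {X q u : ℕ} (hX : 1 ≤ X) (hq : 1 ≤ q) (t : ℝ) :
    ‖GB w X q u t‖ ≤ 3 * (Real.log (3 * X) + 1) := by
  have hX0 : (0 : ℝ) < X := by positivity
  have hlog : 0 ≤ Real.log (3 * X) := by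
    apply Real.log_nonneg
    have : (1 : ℝ) ≤ X := by exact_mod_cast hX
    linarith
  unfold GB
  refine (norm_sum_le _ _).trans ?_
  calc _ ≤ ∑ m ∈ Icc 1 (3 * X), (Real.log (3 * X) + 1) / X := by
        refine Finset.sum_le_sum fun m hm => ?_
        obtain ⟨hm1, hm2⟩ := Finset.mem_Icc.1 hm
        have hm0 : (0 : ℝ) < m := by positivity
        rw [norm_mul, norm_ch_TOT, mul_one, norm_div, Complex.norm_natCast, Complex.norm_real,
          Real.norm_eq_abs]
        by_cases hmX : m < X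
        · unfold gw
          rw [w_out hw hX hm1 hmX, zero_mul, abs_zero, zero_div]
          positivity
        · push Not at hmX
          have hmX' : (X : ℝ) ≤ m := by exact_mod_cast hmX
          apply div_le_div₀ (by positivity) _ hX0 hmX'
          unfold gw
          rw [abs_mul, abs_of_nonneg (hw.nonneg _)]
          have h1 : |(if m ≡ u [MOD q] then Λ m else 0) -
              (if Nat.Coprime u q then 1 / (Nat.totient q : ℝ) else 0)| ≤ Real.log (3 * X) + 1 := by
            have hl : Λ m ≤ Real.log (3 * X) := by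
              refine vonMangoldt_le_log.trans (Real.log_le_log hm0 ?_)
              exact_mod_cast hm2
            have hL0 : 0 ≤ Λ m := vonMangoldt_nonneg
            have hφ : 1 ≤ (Nat.totient q : ℝ) := by
              exact_mod_cast Nat.totient_pos.2 (by omega)
            have hφ' : 1 / (Nat.totient q : ℝ) ≤ 1 := by
              rw [div_le_one (by linarith)]
              exact hφ
            have hφ0 : 0 ≤ 1 / (Nat.totient q : ℝ) := by positivity
            rw [abs_le]
            constructor <;> split_ifs <;> linarith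
          calc _ ≤ 1 * (Real.log (3 * X) + 1) :=
                mul_le_mul (hw.le_one _) h1 (abs_nonneg _) zero_le_one
            _ = _ := one_mul _
    _ = 3 * (Real.log (3 * X) + 1) := by
        rw [Finset.sum_const, Nat.card_Icc, nsmul_eq_mul]
        push_cast [Nat.add_sub_cancel]
        field_simp

/-- classes which are not coprime to the modulus -/
lemma GB_ncop_TOT {w : ℝ → ℝ} (hw : IsW w) {X q u : ℕ} (hX : 1 ≤ X) (hq : 1 ≤ q)
    (hc : ¬ Nat.Coprime u q) (t : ℝ) :
    ‖GB w X q u t‖ ≤ (Nat.log 2 (3 * X) : ℝ) * Real.log q / X := by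
  classical
  have hX0 : (0 : ℝ) < X := by positivity
  unfold GB
  refine (norm_sum_le _ _).trans ?_
  calc _ ≤ ∑ m ∈ (Icc 1 (3 * X)).filter (fun m => m ≡ u [MOD q] ∧ Λ m ≠ 0), Λ m / X := by
        rw [Finset.sum_filter]
        refine Finset.sum_le_sum fun m hm => ?_
        obtain ⟨hm1, hm2⟩ := Finset.mem_Icc.1 hm
        have hm0 : (0 : ℝ) < m := by positivity
        have hL0 : 0 ≤ Λ m := vonMangoldt_nonneg
        rw [norm_mul, norm_ch_TOT, mul_one, norm_div, Complex.norm_natCast, Complex.norm_real,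
          Real.norm_eq_abs]
        by_cases hmX : m < X
        · unfold gw
          rw [w_out hw hX hm1 hmX, zero_mul, abs_zero, zero_div]
          split_ifs
          · positivity
          · exact le_rfl
        · push Not at hmX
          have hmX' : (X : ℝ) ≤ m := by exact_mod_cast hmX
          unfold gw
          rw [if_neg hc, sub_zero]
          by_cases hmu : m ≡ u [MOD q]
          · by_cases hL : Λ m = 0
            · rw [if_pos hmu, hL, mul_zero, abs_zero, zero_div, if_neg (by simp)]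
            · rw [if_pos hmu, if_pos ⟨hmu, hL⟩, abs_mul, abs_of_nonneg (hw.nonneg _),
                abs_of_nonneg hL0]
              apply div_le_div₀ hL0 _ hX0 hmX'
              calc _ ≤ 1 * Λ m := mul_le_mul_of_nonneg_right (hw.le_one _) hL0
                _ = _ := one_mul _
          · rw [if_neg hmu, mul_zero, abs_zero, zero_div, if_neg (fun h => hmu h.1)]
    _ = (∑ m ∈ (Icc 1 (3 * X)).filter (fun m => m ≡ u [MOD q] ∧ Λ m ≠ 0), Λ m) / X := by
        rw [Finset.sum_div]
    _ ≤ (Nat.log 2 (3 * X) : ℝ) * Real.log q / X := by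
        apply div_le_div_of_nonneg_right _ hX0.le
        have hsub : (Icc 1 (3 * X)).filter (fun m => m ≡ u [MOD q] ∧ Λ m ≠ 0) ⊆
            (q ^ Nat.log 2 (3 * X)).divisors := by
          intro m hm
          obtain ⟨hmI, hmu, hL⟩ := Finset.mem_filter.1 hm
          obtain ⟨hm1, hm2⟩ := Finset.mem_Icc.1 hmI
          rw [Nat.mem_divisors]
          refine ⟨?_, pow_ne_zero _ (by omega)⟩
          obtain ⟨p, k, hp, hk, rfl⟩ := (isPrimePow_nat_iff m).1 (vonMangoldt_ne_zero_iff.1 hL)
          -- `p ∣ q`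
          have hpq : p ∣ q := by
            by_contra hpq
            apply hc
            have h1 : Nat.Coprime (p ^ k) q :=
              Nat.Coprime.pow_left k ((Nat.Prime.coprime_iff_not_dvd hp).2 hpq)
            have h2 : Nat.gcd (p ^ k) q = Nat.gcd u q := hmu.gcd_eq
            unfold Nat.Coprime at h1 ⊢
            rw [← h2, h1]
          have hk2 : k ≤ Nat.log 2 (3 * X) := by
            have h1 : 2 ^ k ≤ 3 * X := (Nat.pow_le_pow_left hp.two_le k).trans hm2
            exact Nat.le_log_of_pow_le (by norm_num) h1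
          exact (pow_dvd_pow_of_dvd hpq k).trans (pow_dvd_pow q hk2)
        calc _ ≤ ∑ m ∈ (q ^ Nat.log 2 (3 * X)).divisors, Λ m :=
              Finset.sum_le_sum_of_subset_of_nonneg hsub fun _ _ _ => vonMangoldt_nonneg
          _ = _ := by
              rw [vonMangoldt_sum]
              push_cast
              rw [Real.log_pow]

/-- coprime classes: characters -/
lemma GB_cop_TOT {w : ℝ → ℝ} {X q u : ℕ} [NeZero q] (hc : Nat.Coprime u q)
    (t : ℝ) :
    ‖GB w X q u t‖ ^ 2 ≤ 2 * (1 / (Nat.totient q : ℝ) *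
      ∑ χ : DirichletCharacter ℂ q, ‖GA w χ X t‖ ^ 2) +
      2 * ‖∑ m ∈ Icc 1 (3 * X), ((w (Real.log (m / X)) : ℝ) : ℂ) * ch t m / m‖ ^ 2 := by
  classical
  have hq : 0 < q := Nat.pos_of_ne_zero (NeZero.ne q)
  have hφ : (0 : ℝ) < Nat.totient q := by exact_mod_cast Nat.totient_pos.2 hq
  have hφ1 : (1 : ℝ) ≤ Nat.totient q := by exact_mod_cast Nat.totient_pos.2 hq
  have hφc : ((Nat.totient q : ℕ) : ℂ) ≠ 0 := by exact_mod_cast hφ.ne'
  have huu : IsUnit ((u : ℕ) : ZMod q) := (ZMod.isUnit_iff_coprime u q).2 hc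
  set W : ℂ := ∑ m ∈ Icc 1 (3 * X), ((w (Real.log (m / X)) : ℝ) : ℂ) * ch t m / m with hW
  have key : GB w X q u t = 1 / ((Nat.totient q : ℕ) : ℂ) *
      (∑ χ : DirichletCharacter ℂ q, χ ((u : ZMod q)⁻¹) * GA w χ X t) -
      1 / ((Nat.totient q : ℕ) : ℂ) * W := by
    have e1 : ∑ χ : DirichletCharacter ℂ q, χ ((u : ZMod q)⁻¹) * GA w χ X t =
        ∑ m ∈ Icc 1 (3 * X), (if (u : ZMod q) = (m : ZMod q) then ((Nat.totient q : ℕ) : ℂ) else 0) *
          (((Λ m * w (Real.log (m / X)) : ℝ) : ℂ) * ch t m / m) := by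
      unfold GA
      simp_rw [Finset.mul_sum]
      rw [Finset.sum_comm]
      refine Finset.sum_congr rfl fun m _ => ?_
      rw [← DirichletCharacter.sum_char_inv_mul_char_eq ℂ huu (m : ZMod q), Finset.sum_mul]
      refine Finset.sum_congr rfl fun χ _ => ?_
      ring
    rw [e1, hW, Finset.mul_sum, Finset.mul_sum, ← Finset.sum_sub_distrib]
    unfold GB
    refine Finset.sum_congr rfl fun m _ => ?_
    unfold gw
    rw [if_pos hc]
    by_cases hmu : m ≡ u [MOD q]
    · have h2 : (u : ZMod q) = (m : ZMod q) := ((ZMod.natCast_eq_natCast_iff _ _ _).2 hmu).symm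
      rw [if_pos hmu, if_pos h2]
      push_cast
      field_simp
    · have h2 : ¬ (u : ZMod q) = (m : ZMod q) := fun h =>
        hmu ((ZMod.natCast_eq_natCast_iff _ _ _).1 h.symm)
      rw [if_neg hmu, if_neg h2]
      push_cast
      ring
  have nn : ∀ χ : DirichletCharacter ℂ q, ‖χ ((u : ZMod q)⁻¹) * GA w χ X t‖ ≤ ‖GA w χ X t‖ := by
    intro χ
    rw [norm_mul]
    calc _ ≤ 1 * ‖GA w χ X t‖ := mul_le_mul_of_nonneg_right (χ.norm_le_one _) (norm_nonneg _)
      _ = _ := one_mul _
  have b1 : ‖1 / ((Nat.totient q : ℕ) : ℂ) *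
      (∑ χ : DirichletCharacter ℂ q, χ ((u : ZMod q)⁻¹) * GA w χ X t)‖ ^ 2 ≤
      1 / (Nat.totient q : ℝ) * ∑ χ : DirichletCharacter ℂ q, ‖GA w χ X t‖ ^ 2 := by
    have h1 : ‖∑ χ : DirichletCharacter ℂ q, χ ((u : ZMod q)⁻¹) * GA w χ X t‖ ≤
        ∑ χ : DirichletCharacter ℂ q, ‖GA w χ X t‖ :=
      (norm_sum_le _ _).trans (Finset.sum_le_sum fun χ _ => nn χ)
    have h2 : (∑ χ : DirichletCharacter ℂ q, ‖GA w χ X t‖) ^ 2 ≤
        (Nat.totient q : ℝ) * ∑ χ : DirichletCharacter ℂ q, ‖GA w χ X t‖ ^ 2 := by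
      have := sq_sum_le_card_mul_sum_sq (s := (univ : Finset (DirichletCharacter ℂ q)))
        (f := fun χ => ‖GA w χ X t‖)
      have hcard : (univ : Finset (DirichletCharacter ℂ q)).card = Nat.totient q := by
        rw [← Nat.card_eq_fintype_card.symm.trans
          (DirichletCharacter.card_eq_totient_of_hasEnoughRootsOfUnity ℂ q)]
        simp
      rw [hcard] at this
      exact this
    rw [norm_mul, norm_div, norm_one, Complex.norm_natCast, mul_pow]
    calc _ ≤ (1 / (Nat.totient q : ℝ)) ^ 2 * ((Nat.totient q : ℝ) *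
          ∑ χ : DirichletCharacter ℂ q, ‖GA w χ X t‖ ^ 2) := by
          apply mul_le_mul_of_nonneg_left _ (by positivity)
          exact (pow_le_pow_left₀ (norm_nonneg _) h1 2).trans h2
      _ = _ := by field_simp
  have b2 : ‖1 / ((Nat.totient q : ℕ) : ℂ) * W‖ ^ 2 ≤ ‖W‖ ^ 2 := by
    apply pow_le_pow_left₀ (norm_nonneg _)
    rw [norm_mul, norm_div, norm_one, Complex.norm_natCast]
    calc _ ≤ 1 * ‖W‖ := by
          apply mul_le_mul_of_nonneg_right _ (norm_nonneg _)
          rw [div_le_one hφ]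
          exact hφ1
      _ = _ := one_mul _
  rw [key]
  calc _ ≤ (‖1 / ((Nat.totient q : ℕ) : ℂ) *
      (∑ χ : DirichletCharacter ℂ q, χ ((u : ZMod q)⁻¹) * GA w χ X t)‖ +
      ‖1 / ((Nat.totient q : ℕ) : ℂ) * W‖) ^ 2 :=
        pow_le_pow_left₀ (norm_nonneg _) (norm_sub_le _ _) 2
    _ ≤ 2 * ‖1 / ((Nat.totient q : ℕ) : ℂ) *
      (∑ χ : DirichletCharacter ℂ q, χ ((u : ZMod q)⁻¹) * GA w χ X t)‖ ^ 2 +
      2 * ‖1 / ((Nat.totient q : ℕ) : ℂ) * W‖ ^ 2 := by
        nlinarith [sq_nonneg (‖1 / ((Nat.totient q : ℕ) : ℂ) *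
      (∑ χ : DirichletCharacter ℂ q, χ ((u : ZMod q)⁻¹) * GA w χ X t)‖ -
      ‖1 / ((Nat.totient q : ℕ) : ℂ) * W‖)]
    _ ≤ _ := by linarith

end Pool.Agent.Helper47.GK
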