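import Pool.Agent.Helper23.GK.StF

/-!
# Project GK, module TOT, part 1: the smooth sum without primes
-/

set_option autoImplicit false

namespace Pool.Agent.Helper47.GK

open Finset ArithmeticFunction MeasureTheory
open Pool.Agent.Helper23.GK
open Pool.Agent.Helper2.MR (ch)
open Pool.Agent.Helper15.AB (IsW)

private lemma deriv_out {f : ℝ → ℝ} (h : ∀ t, t ∉ Set.Icc (0 : ℝ) 1 → f t = 0) :
    ∀ t, t ∉ Set.Icc (0 : ℝ) 1 → deriv f t = 0 := by
  intro t ht
  have h1 : f =ᶠ[nhds t] fun _ => 0 := by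
    filter_upwards [isClosed_Icc.isOpen_compl.mem_nhds ht] with s hs
    exact h s hs
  rw [h1.deriv_eq, deriv_const]

/-- bounds for the first two derivatives of an admissible weight -/
lemma wbounds_TOT {w : ℝ → ℝ} (hw : IsW w) : ∃ C : ℝ, 1 ≤ C ∧ Continuous (deriv w) ∧
    (∀ v, |deriv w v| ≤ C) ∧ (∀ v, |deriv (deriv w) v| ≤ C) ∧ Differentiable ℝ w ∧
    Differentiable ℝ (deriv w) ∧
    (∀ v, v ∉ Set.Icc (0 : ℝ) 1 → deriv w v = 0) ∧
    (∀ v, v ∉ Set.Icc (0 : ℝ) 1 → deriv (deriv w) v = 0) := by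
  have h1 : ContDiff ℝ (3 + 1) w := by
    have := hw.smooth
    norm_num
    exact this
  have h2 := (contDiff_succ_iff_deriv.1 h1).2.2
  have h3 : ContDiff ℝ (2 + 1) (deriv w) := by
    norm_num
    exact h2
  have h4 := (contDiff_succ_iff_deriv.1 h3).2.2
  have z0 := hw.supp
  have z1 := deriv_out z0
  have z2 := deriv_out z1
  have hb : ∀ f : ℝ → ℝ, Continuous f → (∀ t, t ∉ Set.Icc (0 : ℝ) 1 → f t = 0) →
      ∃ C : ℝ, ∀ v, |f v| ≤ C := by
    intro f hf hz
    obtain ⟨C, hC⟩ := isCompact_Icc.exists_bound_of_continuousOn (hf.continuousOn (s := Set.Icc (0:ℝ) 1))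
    refine ⟨max C 0, fun v => ?_⟩
    by_cases hv : v ∈ Set.Icc (0 : ℝ) 1
    · exact (hC v hv).trans (le_max_left _ _)
    · rw [hz v hv, abs_zero]
      exact le_max_right _ _
  obtain ⟨C1, hC1⟩ := hb _ h2.continuous z1
  obtain ⟨C2, hC2⟩ := hb _ h4.continuous z2
  refine ⟨max 1 (max C1 C2), le_max_left _ _, h2.continuous, fun v => ?_, fun v => ?_,
    h1.differentiable (by norm_num), h3.differentiable (by norm_num), z1, z2⟩
  · exact (hC1 v).trans ((le_max_left _ _).trans (le_max_right _ _))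
  · exact (hC2 v).trans ((le_max_right _ _).trans (le_max_right _ _))

/-- `y^{-it}` -/
private noncomputable def EE' (t y : ℝ) : ℂ := Complex.exp (((-(t * Real.log y) : ℝ) : ℂ) * Complex.I)

private lemma norm_E (t y : ℝ) : ‖EE' t y‖ = 1 := by
  unfold EE'
  rw [Complex.norm_exp_ofReal_mul_I]

private lemma E_ch (t : ℝ) (n : ℕ) : EE' t n = ch t n := rfl

private lemma hasDeriv_E (t : ℝ) {y : ℝ} (hy : 0 < y) :
    HasDerivAt (EE' t) (EE' t y * (-(t : ℂ) * Complex.I) / y) y := by
  have h1 : HasDerivAt (fun y : ℝ => -(t * Real.log y)) (-(t * y⁻¹)) y :=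
    ((Real.hasDerivAt_log hy.ne').const_mul t).neg
  have h2 : HasDerivAt (fun y : ℝ => ((-(t * Real.log y) : ℝ) : ℂ) * Complex.I)
      (((-(t * y⁻¹) : ℝ) : ℂ) * Complex.I) y := (h1.ofReal_comp).mul_const _
  have h3 := h2.cexp
  refine h3.congr_deriv ?_
  unfold EE'
  push_cast
  field_simp

/-- derivative of `y^{-it} h(log (y/X))` -/
private lemma hasDeriv_F (t : ℝ) {X y : ℝ} (hX : 0 < X) (hy : 0 < y) {h : ℝ → ℂ} {h' : ℂ}
    (hh : HasDerivAt h h' (Real.log (y / X))) :
    HasDerivAt (fun y : ℝ => EE' t y * h (Real.log (y / X)))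
      (EE' t y * (h' - Complex.I * t * h (Real.log (y / X))) / y) y := by
  have h1 : HasDerivAt (fun y : ℝ => Real.log (y / X)) (y⁻¹) y := by
    have := (((hasDerivAt_id y).div_const X)).log (by simp only [id]; positivity)
    refine this.congr_deriv ?_
    simp only [id]
    field_simp
  have h2 : HasDerivAt (fun y : ℝ => h (Real.log (y / X))) (y⁻¹ • h') y := hh.scomp y h1
  have h3 := (hasDeriv_E t hy).mul h2
  refine h3.congr_deriv ?_
  rw [Complex.real_smul]
  push_cast
  field_simp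
  ring

private lemma log_neg' {X y : ℝ} (hX : 0 < X) (hy : 0 < y) (h : y < X) :
    Real.log (y / X) ∉ Set.Icc (0 : ℝ) 1 := by
  have : Real.log (y / X) < 0 := Real.log_neg (by positivity) (by rwa [div_lt_one hX])
  intro hh
  exact absurd hh.1 (not_le.2 this)

private lemma log_three' {X : ℝ} (hX : 0 < X) : Real.log (3 * X / X) ∉ Set.Icc (0 : ℝ) 1 := by
  rw [mul_div_cancel_right₀ _ hX.ne']
  have : 1 < Real.log 3 := by
    rw [Real.lt_log_iff_exp_lt (by norm_num)]
    exact Real.exp_one_lt_d9.trans (by norm_num)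
  intro hh
  exact absurd hh.2 (not_le.2 this)

/-- the smooth sum without primes -/
lemma smooth_TOT {w : ℝ → ℝ} (hw : IsW w) : ∃ C : ℝ, 1 ≤ C ∧ ∀ (X : ℕ) (t : ℝ), 2 ≤ X → 1 ≤ |t| →
    ‖∑ m ∈ Icc 1 (3 * X), ((w (Real.log (m / X)) : ℝ) : ℂ) * ch t m / m‖ ≤
      C * (1 / |t| + |t| / X) := by
  obtain ⟨C, hC1, hcont, hb1, hb2, hd0, hd1, z1, z2⟩ := wbounds_TOT hw
  refine ⟨36 * C, by linarith, ?_⟩
  intro X t hX ht
  have hX0 : (0 : ℝ) < X := by positivity
  have ht0 : t ≠ 0 := by
    rintro rfl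
    norm_num at ht
  have htc : (t : ℂ) ≠ 0 := by exact_mod_cast ht0
  have habs : 0 < |t| := by linarith
  have hnt : ‖(t : ℂ)‖ = |t| := by rw [Complex.norm_real, Real.norm_eq_abs]
  -- the functions
  set h0 : ℝ → ℂ := fun v => Complex.I / t * ((w v : ℝ) : ℂ) with hh0
  set h1 : ℝ → ℂ := fun v => ((w v : ℝ) : ℂ) + Complex.I / t * ((deriv w v : ℝ) : ℂ) with hh1
  set h1' : ℝ → ℂ := fun v => ((deriv w v : ℝ) : ℂ) + Complex.I / t * ((deriv (deriv w) v : ℝ) : ℂ)
    with hh1'
  have d0 : ∀ v, HasDerivAt h0 (Complex.I / t * ((deriv w v : ℝ) : ℂ)) v := fun v =>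
    ((hd0 v).hasDerivAt.ofReal_comp).const_mul _
  have d1 : ∀ v, HasDerivAt h1 (h1' v) v := fun v =>
    ((hd0 v).hasDerivAt.ofReal_comp).add (((hd1 v).hasDerivAt.ofReal_comp).const_mul _)
  set G : ℝ → ℂ := fun y => EE' t y * h0 (Real.log (y / X)) with hG
  set F : ℝ → ℂ := fun y => EE' t y * h1 (Real.log (y / X)) / y with hF
  have hIt : ‖Complex.I / (t : ℂ)‖ ≤ 1 := by
    rw [norm_div, Complex.norm_I, hnt, div_le_one habs]
    exact ht
  have nw : ∀ v, ‖((w v : ℝ) : ℂ)‖ ≤ 1 := fun v => by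
    rw [Complex.norm_real, Real.norm_eq_abs, abs_of_nonneg (hw.nonneg v)]
    exact hw.le_one v
  have nw1 : ∀ v, ‖((deriv w v : ℝ) : ℂ)‖ ≤ C := fun v => by
    rw [Complex.norm_real, Real.norm_eq_abs]
    exact hb1 v
  have nw2 : ∀ v, ‖((deriv (deriv w) v : ℝ) : ℂ)‖ ≤ C := fun v => by
    rw [Complex.norm_real, Real.norm_eq_abs]
    exact hb2 v
  have n1 : ∀ v, ‖h1 v‖ ≤ 1 + C := fun v => by
    refine (norm_add_le _ _).trans (add_le_add (nw v) ?_)
    rw [norm_mul]
    calc _ ≤ 1 * C := mul_le_mul hIt (nw1 v) (norm_nonneg _) zero_le_one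
      _ = C := one_mul C
  have n1' : ∀ v, ‖h1' v‖ ≤ C + C := fun v => by
    refine (norm_add_le _ _).trans (add_le_add (nw1 v) ?_)
    rw [norm_mul]
    calc _ ≤ 1 * C := mul_le_mul hIt (nw2 v) (norm_nonneg _) zero_le_one
      _ = C := one_mul C
  have dG : ∀ y : ℝ, 0 < y → HasDerivAt G (F y) y := by
    intro y hy
    refine (hasDeriv_F t hX0 hy (d0 _)).congr_deriv ?_
    simp only [hF, hh0, hh1]
    have : Complex.I * (t : ℂ) * (Complex.I / t * ((w (Real.log (y / X)) : ℝ) : ℂ)) =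
        -((w (Real.log (y / X)) : ℝ) : ℂ) := by
      field_simp
      rw [Complex.I_sq]
      ring
    rw [this]
    ring
  have dF : ∀ y : ℝ, 0 < y → HasDerivAt F
      ((EE' t y * (h1' (Real.log (y / X)) - Complex.I * t * h1 (Real.log (y / X))) -
        EE' t y * h1 (Real.log (y / X))) / y ^ 2) y := by
    intro y hy
    have hyc : (y : ℂ) ≠ 0 := by exact_mod_cast hy.ne'
    have e1 := (hasDeriv_F t hX0 hy (d1 _)).div ((hasDerivAt_id y).ofReal_comp) hyc
    refine e1.congr_deriv ?_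
    simp only [id]
    push_cast
    field_simp
  have bF : ∀ y : ℝ, 0 < y → ‖(EE' t y * (h1' (Real.log (y / X)) - Complex.I * t *
      h1 (Real.log (y / X))) - EE' t y * h1 (Real.log (y / X))) / (y : ℂ) ^ 2‖ ≤
      6 * C * (1 + |t|) / X ^ 2 := by
    intro y hy
    by_cases hyX : y < X
    · have hout := log_neg' hX0 hy hyX
      have a1 : h1 (Real.log (y / X)) = 0 := by
        simp only [hh1]
        rw [hw.supp _ hout, z1 _ hout]
        simp
      have a2 : h1' (Real.log (y / X)) = 0 := by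
        simp only [hh1']
        rw [z1 _ hout, z2 _ hout]
        simp
      rw [a1, a2]
      simp only [mul_zero, sub_zero, zero_div, norm_zero]
      positivity
    · push Not at hyX
      rw [norm_div, norm_pow, Complex.norm_real, Real.norm_eq_abs, abs_of_pos hy]
      have hnum : ‖EE' t y * (h1' (Real.log (y / X)) - Complex.I * t * h1 (Real.log (y / X))) -
          EE' t y * h1 (Real.log (y / X))‖ ≤ 6 * C * (1 + |t|) := by
        refine (norm_sub_le _ _).trans ?_
        rw [norm_mul, norm_mul, norm_E, one_mul, one_mul]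
        have e1 : ‖h1' (Real.log (y / X)) - Complex.I * t * h1 (Real.log (y / X))‖ ≤
            (C + C) + |t| * (1 + C) := by
          refine (norm_sub_le _ _).trans (add_le_add (n1' _) ?_)
          rw [norm_mul, norm_mul, Complex.norm_I, one_mul, hnt]
          exact mul_le_mul_of_nonneg_left (n1 _) habs.le
        have e2 := n1 (Real.log (y / X))
        nlinarith
      have hsq : (X : ℝ) ^ 2 ≤ y ^ 2 := pow_le_pow_left₀ hX0.le hyX 2
      exact div_le_div₀ (by positivity) hnum (by positivity) hsq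
  set M : ℝ := 6 * C * (1 + |t|) / X ^ 2 with hM
  have hM0 : 0 ≤ M := by positivity
  -- one step
  have step : ∀ m : ℕ, 1 ≤ m → ‖G (m + 1) - G m - F m‖ ≤ M := by
    intro m hm
    have hm0 : (0 : ℝ) < m := by positivity
    have hFl : ∀ y ∈ Set.Icc (m : ℝ) (m + 1), ‖F y - F m‖ ≤ M := by
      intro y hy
      have := (convex_Icc (m : ℝ) (m + 1)).norm_image_sub_le_of_norm_hasDerivWithin_le
        (f := F) (fun z hz => (dF z (lt_of_lt_of_le hm0 hz.1)).hasDerivWithinAt)
        (fun z hz => bF z (lt_of_lt_of_le hm0 hz.1)) (Set.left_mem_Icc.2 (by linarith)) hy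
      refine this.trans ?_
      rw [Real.norm_eq_abs, abs_of_nonneg (by linarith [hy.1])]
      nlinarith [hy.2]
    have h2 := (convex_Icc (m : ℝ) (m + 1)).norm_image_sub_le_of_norm_hasDerivWithin_le
      (f := fun y : ℝ => G y - y * F m) (f' := fun y => F y - F m) (C := M)
      (fun z hz => by
        have e1 := dG z (lt_of_lt_of_le hm0 hz.1)
        have e2 : HasDerivAt (fun y : ℝ => (y : ℂ) * F m) (F m) z := by
          have := ((hasDerivAt_id z).ofReal_comp).mul_const (F m)
          refine this.congr_deriv ?_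
          simp
        exact (e1.sub e2).hasDerivWithinAt)
      hFl (Set.left_mem_Icc.2 (by linarith)) (Set.right_mem_Icc.2 (by linarith))
    have e3 : (fun y : ℝ => G y - y * F m) (m + 1) - (fun y : ℝ => G y - y * F m) m =
        G (m + 1) - G m - F m := by
      simp only
      push_cast
      ring
    rw [e3] at h2
    refine h2.trans ?_
    rw [add_sub_cancel_left, norm_one, mul_one]
  -- telescoping
  have hG1 : G ((1 : ℕ) : ℝ) = 0 := by
    simp only [hG, hh0]
    rw [hw.supp _ (log_neg' hX0 (by norm_num) (by exact_mod_cast (by omega : 1 < X)))]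
    simp
  have hG3 : G ((3 * X : ℕ) : ℝ) = 0 := by
    simp only [hG, hh0]
    have := log_three' hX0
    push_cast
    rw [hw.supp _ this]
    simp
  have hF3 : F ((3 * X : ℕ) : ℝ) = 0 := by
    simp only [hF, hh1]
    have := log_three' hX0
    push_cast
    rw [hw.supp _ this, z1 _ this]
    simp
  have sumF : ‖∑ m ∈ Icc 1 (3 * X), F m‖ ≤ 3 * X * M := by
    have e1 : ∑ m ∈ Icc 1 (3 * X), F m = ∑ i ∈ range (3 * X - 1), F ((i + 1 : ℕ) : ℝ) := by
      have : Icc 1 (3 * X) = Ico 1 (3 * X + 1) := rfl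
      rw [this, Finset.sum_Ico_succ_top (by omega), hF3, add_zero, Finset.sum_Ico_eq_sum_range]
      refine Finset.sum_congr rfl fun i _ => ?_
      rw [add_comm]
    have e2 : ∑ i ∈ range (3 * X - 1), (G ((i + 1 + 1 : ℕ) : ℝ) - G ((i + 1 : ℕ) : ℝ)) = 0 := by
      rw [Finset.sum_range_sub (fun i => G ((i + 1 : ℕ) : ℝ))]
      rw [show 3 * X - 1 + 1 = 3 * X by omega, hG3, zero_add, hG1, sub_zero]
    have e3 : ∑ i ∈ range (3 * X - 1), F ((i + 1 : ℕ) : ℝ) =
        -∑ i ∈ range (3 * X - 1), (G ((i + 1 + 1 : ℕ) : ℝ) - G ((i + 1 : ℕ) : ℝ) -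
          F ((i + 1 : ℕ) : ℝ)) := by
      rw [Finset.sum_sub_distrib, e2]
      ring
    rw [e1, e3, norm_neg]
    refine (norm_sum_le _ _).trans ?_
    calc _ ≤ ∑ i ∈ range (3 * X - 1), M := by
          refine Finset.sum_le_sum fun i _ => ?_
          have := step (i + 1) (by omega)
          push_cast at this ⊢
          exact this
      _ = ((3 * X - 1 : ℕ) : ℝ) * M := by rw [Finset.sum_const, card_range, nsmul_eq_mul]
      _ ≤ 3 * X * M := by
          apply mul_le_mul_of_nonneg_right _ hM0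
          have : 3 * X - 1 ≤ 3 * X := by omega
          exact_mod_cast this
  -- the remaining sum
  have rest : ‖∑ m ∈ Icc 1 (3 * X), ((deriv w (Real.log ((m : ℝ) / X)) : ℝ) : ℂ) * ch t m / m‖ ≤
      3 * C := by
    refine (norm_sum_le _ _).trans ?_
    calc _ ≤ ∑ m ∈ Icc 1 (3 * X), C / X := by
          refine Finset.sum_le_sum fun m hm => ?_
          have hm1 : 1 ≤ m := (Finset.mem_Icc.1 hm).1
          have hm0 : (0 : ℝ) < m := by positivity
          rw [norm_div, norm_mul, ← E_ch, norm_E, mul_one, Complex.norm_natCast]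
          by_cases hmX : (m : ℝ) < X
          · rw [z1 _ (log_neg' hX0 hm0 hmX)]
            simp only [Complex.ofReal_zero, norm_zero, zero_div]
            positivity
          · push Not at hmX
            exact div_le_div₀ (by positivity) (nw1 _) hX0 hmX
      _ = 3 * C := by
          rw [Finset.sum_const, Nat.card_Icc, nsmul_eq_mul]
          push_cast [Nat.add_sub_cancel]
          field_simp
  have split : ∑ m ∈ Icc 1 (3 * X), ((w (Real.log (m / X)) : ℝ) : ℂ) * ch t m / m =
      ∑ m ∈ Icc 1 (3 * X), F m - Complex.I / t *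
        ∑ m ∈ Icc 1 (3 * X), ((deriv w (Real.log ((m : ℝ) / X)) : ℝ) : ℂ) * ch t m / m := by
    rw [Finset.mul_sum, ← Finset.sum_sub_distrib]
    refine Finset.sum_congr rfl fun m _ => ?_
    simp only [hF, hh1]
    rw [E_ch]
    push_cast
    ring
  rw [split]
  refine (norm_sub_le _ _).trans ?_
  rw [norm_mul, norm_div, Complex.norm_I, hnt]
  calc _ ≤ 3 * X * M + 1 / |t| * (3 * C) :=
        add_le_add sumF (mul_le_mul_of_nonneg_left rest (by positivity))
    _ = 18 * C * (1 + |t|) / X + 3 * C / |t| := by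
        rw [hM]
        field_simp
        ring
    _ ≤ 36 * C * (1 / |t| + |t| / X) := by
        have e1 : 18 * C * (1 + |t|) / X ≤ 36 * C * |t| / X := by
          apply div_le_div_of_nonneg_right _ hX0.le
          nlinarith
        have e2 : 3 * C / |t| ≤ 36 * C / |t| := by
          apply div_le_div_of_nonneg_right _ habs.le
          linarith
        calc _ ≤ 36 * C * |t| / X + 36 * C / |t| := add_le_add e1 e2
          _ = _ := by ring

end Pool.Agent.Helper47.GK
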